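import Pool.Agent.Lib.MP_b4205f_al.H22.Main

/-!
If `n^2 = y + p^2 M` with nonzero integers `y, M` and twice the number of positive divisors of
`M` exceeds `|y|`, then `[[1, p/n], [0, 1]]` and `[[1, 0], [p/n, 1]]` are not free generators.
-/

namespace Pool.Agent.Results.MP_b4205f_al.CofactorDivisors

open Pool.Agent.Lib.MP_b4205f_al.H22

theorem result (p n : ℕ) (hn : 0 < n) (y M : ℤ) (hy : y ≠ 0) (hM : M ≠ 0)
    (hr : (n : ℤ) ^ 2 = y + (p : ℤ) ^ 2 * M) (hlt : y.natAbs < 2 * M.natAbs.divisors.card)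
    (A B : Matrix.SpecialLinearGroup (Fin 2) ℚ)
    (hA : (A : Matrix (Fin 2) (Fin 2) ℚ) = !![1, (p : ℚ) / n; 0, 1])
    (hB : (B : Matrix (Fin 2) (Fin 2) ℚ) = !![1, 0; (p : ℚ) / n, 1]) :
    ¬ Function.Injective (FreeGroup.lift ![A, B]) := by
  intro hinj
  have := criterion_two hn hy hM hr ⟨A, B, hA, hB, hinj⟩
  omega

end Pool.Agent.Results.MP_b4205f_al.CofactorDivisors
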