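import Pool.Agent.Lib.MP_b4205f_al.CH.Final

/-!
If `p >= 1` and `n ^ 2 >= 2 p ((p + 2) / 4) ^ (p / 2)`, then `[[1, p/n], [0, 1]]` and
`[[1, 0], [p/n, 1]]` are not free generators.
-/

namespace Pool.Agent.Results.MP_b4205f_al.ExplicitThreshold

open Pool.Agent.Lib.MP_b4205f_al

theorem result (p n : ℕ) (hp : 0 < p)
    (hn : 2 * (p : ℝ) * (((p : ℝ) + 2) / 4) ^ ((p : ℝ) / 2) ≤ (n : ℝ) ^ 2)
    (A B : Matrix.SpecialLinearGroup (Fin 2) ℚ)
    (hA : (A : Matrix (Fin 2) (Fin 2) ℚ) = !![1, (p : ℚ) / n; 0, 1])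
    (hB : (B : Matrix (Fin 2) (Fin 2) ℚ) = !![1, 0; (p : ℚ) / n, 1]) :
    ¬ Function.Injective (FreeGroup.lift ![A, B]) := by
  have h3 := CH.threshold p n hp hn
  have hA' : A = H22.U ((p : ℚ) / n) := Subtype.ext hA
  have hB' : B = H22.L ((p : ℚ) / n) := Subtype.ext hB
  rw [hA', hB']
  exact h3

end Pool.Agent.Results.MP_b4205f_al.ExplicitThreshold
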