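import Pool.Agent.Lib.MP_b4205f_al.CH.Final

/-!
Let `al` be a nonzero rational number with `|al| < 2` whose numerator (in lowest terms) is at most 12
in absolute value.  Then `[[1, al], [0, 1]]` and `[[1, 0], [al, 1]]` are not free generators.
-/

namespace Pool.Agent.Results.MP_b4205f_al.SmallNumerators

open Pool.Agent.Lib.MP_b4205f_al

theorem result (al : ℚ) (h0 : al ≠ 0) (h2 : |al| < 2) (h : |al.num| ≤ 12)
    (A B : Matrix.SpecialLinearGroup (Fin 2) ℚ)
    (hA : (A : Matrix (Fin 2) (Fin 2) ℚ) = !![1, al; 0, 1])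
    (hB : (B : Matrix (Fin 2) (Fin 2) ℚ) = !![1, 0; al, 1]) :
    ¬ Function.Injective (FreeGroup.lift ![A, B]) := by
  have h3 := CH.final al h0 h2 (Or.inl h)
  have hA' : A = H22.U al := Subtype.ext hA
  have hB' : B = H22.L al := Subtype.ext hB
  rw [hA', hB']
  exact h3

end Pool.Agent.Results.MP_b4205f_al.SmallNumerators
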